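import Mathlib
import Pool.Agent.H.MP_49092c_al.B

set_option autoImplicit false

namespace Pool.Agent.Results.MP_8dd27d_al.No

open Pool.Agent.H.MP_49092c_al MvPolynomial

/-- After an invertible linear substitution, the ideal has a Groebner basis of quadrics
for some monomial order. -/
def GQuad {n : ℕ} {K : Type} [Field K] (J : Ideal (MvPolynomial (Fin n) K)) : Prop :=
  ∃ (M : Matrix (Fin n) (Fin n) K) (m : MonomialOrder.{0, 0} (Fin n)) (B : Set (MvPolynomial (Fin n) K)),
    M.det ≠ 0 ∧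
    (∀ b ∈ B, b ∈ J.map (aeval fun i => ∑ j, M i j • (X j : MvPolynomial (Fin n) K)) ∧
      b ≠ 0 ∧ b.IsHomogeneous 2) ∧
    ∀ f ∈ J.map (aeval fun i => ∑ j, M i j • (X j : MvPolynomial (Fin n) K)), f ≠ 0 →
      ∃ b ∈ B, m.degree b ≤ m.degree f

lemma lead (m : MonomialOrder.{0, 0} (Fin 2)) (i j : Fin 2) (hij : i ≠ j)
    (h : m.toSyn (Finsupp.single i 1) < m.toSyn (Finsupp.single j 1)) {b : S (Fin 2)}
    (h2 : b.IsHomogeneous 2) (h0 : b ≠ 0) (hd : m.degree b ≤ Finsupp.single i 3) :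
    ∃ c : ℚ, c ≠ 0 ∧ b = C c * X i ^ 2 := by
  have key : ∀ e : Fin 2 →₀ ℕ, e ∈ b.support → e = Finsupp.single i (e i) + Finsupp.single j (e j) ∧
      e i + e j = 2 := by
    intro e he
    have e1 : e = Finsupp.single i (e i) + Finsupp.single j (e j) := by
      ext k
      fin_cases i <;> fin_cases j <;> fin_cases k <;> simp_all
    refine ⟨e1, ?_⟩
    have := h2 (mem_support_iff.1 he)
    rw [e1, map_add, Finsupp.weight_single, Finsupp.weight_single] at this
    simpa using this
  have d1 := key _ (m.degree_mem_support h0)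
  have dj : m.degree b j = 0 := by
    have := hd j
    rw [Finsupp.single_eq_of_ne hij.symm] at this
    omega
  have d2 : m.degree b = Finsupp.single i 2 := by
    rw [d1.1, dj, show m.degree b i = 2 by omega]; simp
  have all : ∀ e ∈ b.support, e = Finsupp.single i 2 := by
    intro e he
    obtain ⟨k1, k2⟩ := key e he
    have le := m.le_degree he
    rw [d2] at le
    have s2 : ∀ k : Fin 2, (Finsupp.single k 2 : Fin 2 →₀ ℕ) = Finsupp.single k 1 + Finsupp.single k 1 :=
      fun k => by rw [← Finsupp.single_add]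
    have : e j = 0 ∨ e j = 1 ∨ e j = 2 := by omega
    rcases this with t | t | t
    · rw [k1, t, show e i = 2 by omega]; simp
    · rw [k1, t, show e i = 1 by omega, s2, map_add, map_add] at le
      exact absurd le (not_le.2 (add_lt_add_right h _))
    · rw [k1, t, show e i = 0 by omega, Finsupp.single_zero, zero_add, s2, s2, map_add, map_add] at le
      exact absurd le (not_le.2 (add_lt_add h h))
  refine ⟨coeff (Finsupp.single i 2) b, d2 ▸ m.coeff_degree_ne_zero_iff.2 h0, ?_⟩
  rw [X_pow_eq_monomial, C_mul_monomial, mul_one]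
  ext e
  rw [coeff_monomial]
  split_ifs with t
  · rw [t]
  · by_contra h'
    exact t (all e (mem_support_iff.2 h')).symm

lemma line (P : Fin 2 → ℚ) (f : S (Fin 2)) :
    (aeval (fun k => Polynomial.C (P k) * Polynomial.X) f : Polynomial ℚ).coeff 0 = constantCoeff f := by
  induction f using MvPolynomial.induction_on with
  | C a => simp
  | add p q hp hq => simp [hp, hq]
  | mul_X p k _ => simp [← mul_assoc]

theorem result :
    let J : Ideal (MvPolynomial (Fin 2) ℚ) := Ideal.span {X 0 * X 1, X 0 ^ 2 - X 1 ^ 2}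
    UK J ∧ ¬ GQuad J := by
  intro J
  refine ⟨uk ((isHomogeneous_X _ _).mul (isHomogeneous_X _ _))
    ((isHomogeneous_X_pow _ _).sub (isHomogeneous_X_pow _ _)) fun a h1 h2 => ?_, ?_⟩
  · simp only [map_sub, map_mul, map_pow, eval_X] at h1 h2
    have : a 0 ^ 4 = 0 := by linear_combination a 0 ^ 2 * h2 + a 0 * a 1 * h1
    have a0 : a 0 = 0 := pow_eq_zero_iff (by norm_num) |>.1 this
    have : a 1 ^ 2 = 0 := by rw [a0] at h2; linarith
    have a1 : a 1 = 0 := pow_eq_zero_iff (by norm_num) |>.1 this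
    funext i
    fin_cases i <;> simp [a0, a1]
  rintro ⟨M, m, B, hM, hB, hG⟩
  set u : S (Fin 2) := C (M 0 0) * X 0 + C (M 0 1) * X 1 with hu
  set v : S (Fin 2) := C (M 1 0) * X 0 + C (M 1 1) * X 1 with hv
  have hJ : J.map (aeval fun i => ∑ j, M i j • (X j : S (Fin 2))) =
      Ideal.span {u * v, u ^ 2 - v ^ 2} := by
    rw [Ideal.map_span, Set.image_pair]
    simp [smul_eq_C_mul, hu, hv]
  rw [hJ] at hB hG
  rw [Matrix.det_fin_two] at hM
  have cube : ∀ a b : S (Fin 2), (a * u + b * v) ^ 3 ∈ Ideal.span {u * v, u ^ 2 - v ^ 2} := fun a b =>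
    Ideal.mem_span_pair.2 ⟨a ^ 3 * v + b ^ 3 * u + 3 * a ^ 2 * b * u + 3 * a * b ^ 2 * v,
      a ^ 3 * u - b ^ 3 * v, by ring⟩
  have c3 : ∀ i : Fin 2, (monomial (Finsupp.single i 3) ((M 0 0 * M 1 1 - M 0 1 * M 1 0) ^ 3) : S (Fin 2)) ∈
      Ideal.span {u * v, u ^ 2 - v ^ 2} := by
    intro i
    rw [← C_mul_X_pow_eq_monomial]
    fin_cases i
    · convert cube (C (M 1 1)) (-C (M 0 1)) using 1
      simp only [hu, hv, map_pow, map_sub, map_mul, Fin.zero_eta]; ring
    · convert cube (-C (M 1 0)) (C (M 0 0)) using 1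
      simp only [hu, hv, map_pow, map_sub, map_mul, Fin.mk_one]; ring
  have nosq : ∀ (i : Fin 2) (c : ℚ), c ≠ 0 → C c * X i ^ 2 ∉ Ideal.span {u * v, u ^ 2 - v ^ 2} := by
    intro i c hc h
    obtain ⟨a, b, e⟩ := Ideal.mem_span_pair.1 h
    let p : S (Fin 2) →ₐ[ℚ] Polynomial ℚ := aeval fun k => Polynomial.C (![M 1 1, -M 1 0] k) * Polynomial.X
    let q : S (Fin 2) →ₐ[ℚ] Polynomial ℚ := aeval fun k => Polynomial.C (![-M 0 1, M 0 0] k) * Polynomial.X
    have pu : p u = Polynomial.C (M 0 0 * M 1 1 - M 0 1 * M 1 0) * Polynomial.X := by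
      simp [p, hu]; ring
    have pv : p v = 0 := by simp [p, hv]; ring
    have qu : q u = 0 := by simp [q, hu]; ring
    have qv : q v = Polynomial.C (M 0 0 * M 1 1 - M 0 1 * M 1 0) * Polynomial.X := by
      simp [q, hv]; ring
    have e1 := congrArg p e
    have e2 := congrArg q e
    simp only [map_add, map_mul, map_sub p, map_sub q, map_pow, pu, pv, qu, qv] at e1 e2
    have e3 : Polynomial.C ((M 0 0 * M 1 1 - M 0 1 * M 1 0) ^ 2) * (p b - q b) * Polynomial.X ^ 2 =
        Polynomial.C (c * ((![M 1 1, -M 1 0] i) ^ 2 + (![-M 0 1, M 0 0] i) ^ 2)) * Polynomial.X ^ 2 := by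
      simp only [p, q, aeval_X, aeval_C, Polynomial.algebraMap_eq] at e1 e2
      simp only [map_add, map_mul, map_pow, p, q]
      linear_combination e1 + e2
    have e4 := congrArg (fun r => Polynomial.coeff r 0) (mul_right_cancel₀ (pow_ne_zero 2 Polynomial.X_ne_zero) e3)
    simp only [Polynomial.coeff_C_mul, Polynomial.coeff_sub, p, q, line, sub_self, mul_zero,
      Polynomial.coeff_C_zero] at e4
    have e5 := (mul_eq_zero.1 e4.symm).resolve_left hc
    apply hM
    fin_cases i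
    · simp at e5
      have t1 : M 1 1 = 0 := by nlinarith [sq_nonneg (M 1 1), sq_nonneg (M 0 1)]
      have t2 : M 0 1 = 0 := by nlinarith [sq_nonneg (M 1 1), sq_nonneg (M 0 1)]
      simp [t1, t2]
    · simp at e5
      have t1 : M 1 0 = 0 := by nlinarith [sq_nonneg (M 1 0), sq_nonneg (M 0 0)]
      have t2 : M 0 0 = 0 := by nlinarith [sq_nonneg (M 1 0), sq_nonneg (M 0 0)]
      simp [t1, t2]
  have fin : ∀ i j : Fin 2, i ≠ j → ¬ m.toSyn (Finsupp.single i 1) < m.toSyn (Finsupp.single j 1) := by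
    intro i j hij h
    have nz := pow_ne_zero 3 hM
    obtain ⟨b, hb, hd⟩ := hG _ (c3 i) (by rwa [Ne, monomial_eq_zero])
    rw [m.degree_monomial, if_neg nz] at hd
    obtain ⟨c, hc, e⟩ := lead m i j hij h (hB b hb).2.2 (hB b hb).2.1 hd
    exact nosq i c hc (e ▸ (hB b hb).1)
  have := le_antisymm (not_lt.1 (fin 0 1 (by decide))) (not_lt.1 (fin 1 0 (by decide)))
  have := DFunLike.congr_fun (m.toSyn.injective this) 0
  simp at this

end Pool.Agent.Results.MP_8dd27d_al.No
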